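import Pool.Agent.Helper35.PQF.St

/-!
# Project PQF (MP_d112a4_gt), module DP2: compact sets of positive matrices.
-/

open Filter Topology Matrix Set MeasureTheory
open scoped ENNReal ComplexOrder

namespace Pool.Agent.Helper29.PM
open Pool.Agent.Helper35.PM

/-- Cayley-Hamilton for a matrix of trace one. -/
theorem ch_trace_one (Q : Mat) (ht : Q.trace = 1) : Q - Q * Q = Q.det • (1 : Mat) := by
  have h : Q 1 1 = 1 - Q 0 0 := by
    rw [Matrix.trace_fin_two] at ht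
    linear_combination ht
  ext i j
  fin_cases i <;> fin_cases j <;>
    simp [Matrix.mul_apply, Fin.sum_univ_two, Matrix.det_fin_two, h] <;> ring

/-- The trace of `B Q B*` has nonnegative real part. -/
theorem trace_conj_nonneg (B Q : Mat) (hQ : Q.PosDef) : 0 ≤ ((B * Q * Bᴴ).trace).re := by
  have h := (hQ.posSemidef.mul_mul_conjTranspose_same B).trace_nonneg
  exact (Complex.nonneg_iff.mp h).1

theorem key (hs1 : St_HS1) (Q : Mat) (hQ : Q.PosDef) (ht : Q.trace = 1) (A : Mat) :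
    Q.det.re * hs A ≤ disp A Q := by
  have hd : 0 < Q.det := hQ.det_pos
  obtain ⟨hdre, hdim⟩ := Complex.pos_iff.mp hd
  have hD : Q.det = ((Q.det.re : ℝ) : ℂ) := by
    apply Complex.ext
    · simp
    · simpa using hdim.symm
  have hne : Q.det ≠ 0 := hd.ne'
  have hu : IsUnit Q.det := isUnit_iff_ne_zero.mpr hne
  have hinv : Q⁻¹ * Q = 1 := Matrix.nonsing_inv_mul Q hu
  have hinv' : Q * Q⁻¹ = 1 := Matrix.mul_nonsing_inv Q hu
  have hH : Qᴴ = Q := hQ.isHermitian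
  have hHi : (Q⁻¹)ᴴ = Q⁻¹ := hQ.inv.isHermitian
  have hch := ch_trace_one Q ht
  -- `Q⁻¹ = 1 + det Q • Q⁻¹ * Q⁻¹`
  have e1 : Q⁻¹ = 1 + Q.det • (Q⁻¹ * Q⁻¹) := by
    have : Q⁻¹ * (Q - Q * Q) * Q⁻¹ = Q⁻¹ * (Q.det • (1 : Mat)) * Q⁻¹ := by rw [hch]
    have h2 : Q⁻¹ * (Q - Q * Q) * Q⁻¹ = Q⁻¹ - 1 := by
      rw [mul_sub, ← mul_assoc, hinv, one_mul, sub_mul, one_mul, hinv']
    rw [h2] at this
    simp only [mul_smul_comm, mul_one, smul_mul_assoc] at this
    rw [← this]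
    abel
  -- `Q = det Q • 1 + Q * Q`
  have e2 : Q = Q.det • (1 : Mat) + Q * Q := by
    rw [← hch]; abel
  have t1 : (Q⁻¹ * A * Q * Aᴴ) = A * Q * Aᴴ + Q.det • (Q⁻¹ * (Q⁻¹ * A * Q * Aᴴ)) := by
    conv_lhs => rw [e1]
    simp only [add_mul, one_mul, smul_mul_assoc, mul_assoc]
  have t2 : (A * Q * Aᴴ) = Q.det • (A * Aᴴ) + (A * Q) * (A * Q)ᴴ := by
    rw [Matrix.conjTranspose_mul, hH]
    conv_lhs => rw [e2]
    simp only [mul_add, add_mul, mul_smul_comm, mul_one, smul_mul_assoc, mul_assoc]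
  have t3 : (Q⁻¹ * (Q⁻¹ * A * Q * Aᴴ)).trace = ((Q⁻¹ * A) * Q * (Q⁻¹ * A)ᴴ).trace := by
    rw [Matrix.trace_mul_comm, Matrix.conjTranspose_mul, hHi]
    simp only [mul_assoc]
  have hn := trace_conj_nonneg (Q⁻¹ * A) Q hQ
  have hA := (hs1.2.2.2 A).2
  have hAQ := (hs1.2.2.2 (A * Q)).2
  have hAQ0 : 0 ≤ hs (A * Q) := by unfold hs; positivity
  have hdisp : disp A Q = Q.det.re * hs A + hs (A * Q) +
      Q.det.re * ((((Q⁻¹ * A) * Q * (Q⁻¹ * A)ᴴ).trace).re) := by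
    unfold disp
    rw [t1, t2, Matrix.trace_add, Matrix.trace_add, Matrix.trace_smul, Matrix.trace_smul, t3,
      ← hA, ← hAQ]
    rw [hD]
    simp [smul_eq_mul]
  rw [hdisp]
  have := mul_nonneg hdre.le hn
  linarith

theorem dp2 (hs1 : St_HS1) : St_DP2 := by
  intro K hK hP
  rcases K.eq_empty_or_nonempty with rfl | hne
  · exact ⟨1, one_pos, by simp⟩
  · have hcont : Continuous fun Q : Mat => Q.det.re :=
      Complex.continuous_re.comp (continuous_id.matrix_det)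
    obtain ⟨Q0, hQ0, hmin⟩ := hK.exists_isMinOn hne hcont.continuousOn
    refine ⟨Q0.det.re, (Complex.pos_iff.mp (hP Q0 hQ0).1.det_pos).1, ?_⟩
    intro Q hQ A
    have h1 : Q0.det.re ≤ Q.det.re := hmin hQ
    have h2 : 0 ≤ hs A := by unfold hs; positivity
    exact (mul_le_mul_of_nonneg_right h1 h2).trans (key hs1 Q (hP Q hQ).1 (hP Q hQ).2 A)

end Pool.Agent.Helper29.PM
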