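import Pool.Agent.Helper62.PM.St4

/-!
# Project PM, module NF: nonnegative zonal measures
-/

set_option autoImplicit false

open MeasureTheory Metric Set Filter Topology
open scoped RealInnerProductSpace ContDiff

namespace Pool.Agent.Helper29.PM

open Pool.Agent.Helper62.PM
open Pool.Agent.Helper62.Mink

/-- velocity of the curve of rotations -/
private noncomputable def Rv {n : ℕ} (e v : E n) (t : ℝ) (x : E n) : E n :=
  (-(Real.sin t) * inner ℝ e x - Real.cos t * inner ℝ v x) • e +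
    (Real.cos t * inner ℝ e x + -(Real.sin t) * inner ℝ v x) • v

/-- acceleration of the curve of rotations -/
private noncomputable def Ra {n : ℕ} (e v : E n) (t : ℝ) (x : E n) : E n :=
  (-(Real.cos t) * inner ℝ e x - -(Real.sin t) * inner ℝ v x) • e +
    (-(Real.sin t) * inner ℝ e x + -(Real.cos t) * inner ℝ v x) • v

private theorem rp_deriv {n : ℕ} (e v x : E n) (t : ℝ) :
    HasDerivAt (fun s => rp e v s x) (Rv e v t x) t := by
  have hc := Real.hasDerivAt_cos t
  have hs := Real.hasDerivAt_sin t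
  have h1 : HasDerivAt (fun s => (Real.cos s - 1) * inner ℝ e x - Real.sin s * inner ℝ v x)
      (-(Real.sin t) * inner ℝ e x - Real.cos t * inner ℝ v x) t :=
    ((hc.sub_const 1).mul_const _).fun_sub (hs.mul_const _)
  have h2 : HasDerivAt (fun s => Real.sin s * inner ℝ e x + (Real.cos s - 1) * inner ℝ v x)
      (Real.cos t * inner ℝ e x + -(Real.sin t) * inner ℝ v x) t :=
    (hs.mul_const _).fun_add ((hc.sub_const 1).mul_const _)
  exact ((h1.smul_const e).const_add x).fun_add (h2.smul_const v)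

private theorem Rv_deriv {n : ℕ} (e v x : E n) (t : ℝ) :
    HasDerivAt (fun s => Rv e v s x) (Ra e v t x) t := by
  have hc := Real.hasDerivAt_cos t
  have hs := Real.hasDerivAt_sin t
  have h1 : HasDerivAt (fun s => -(Real.sin s) * inner ℝ e x - Real.cos s * inner ℝ v x)
      (-(Real.cos t) * inner ℝ e x - -(Real.sin t) * inner ℝ v x) t :=
    (hs.fun_neg.mul_const _).fun_sub (hc.mul_const _)
  have h2 : HasDerivAt (fun s => Real.cos s * inner ℝ e x + -(Real.sin s) * inner ℝ v x)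
      (-(Real.sin t) * inner ℝ e x + -(Real.cos t) * inner ℝ v x) t :=
    (hc.mul_const _).fun_add (hs.fun_neg.mul_const _)
  exact (h1.smul_const e).fun_add (h2.smul_const v)

private theorem rp_zero_vec {n : ℕ} (e v : E n) (t : ℝ) : rp e v t 0 = 0 := by
  simp [rp]

private theorem rp_ne (hA : StA) {n : ℕ} {e v : E n} (h : ON (e, v)) (t : ℝ) {x : E n}
    (hx : x ≠ 0) : rp e v t x ≠ 0 := by
  intro h0
  apply hx
  have h1 := (hA n e v h).2.1 (-t) t x
  rw [h0, rp_zero_vec, neg_add_cancel, (hA n e v h).2.2.1] at h1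
  exact h1.symm

/-- the operator as a second derivative -/
private theorem Lop_eq (hA : StA) {n : ℕ} {e v : E n} (h : ON (e, v)) {φ : E n → ℝ} (hφ : S1 φ)
    {w : E n} (hw : w ≠ 0) :
    Lop e v φ w = D2 φ (Rv e v 0 w) w + fderiv ℝ φ w (Ra e v 0 w) + φ w := by
  have h1 : ∀ t : ℝ, HasDerivAt (fun s => φ (rp e v s w))
      (fderiv ℝ φ (rp e v t w) (Rv e v t w)) t := by
    intro t
    have hd : DifferentiableAt ℝ φ (rp e v t w) :=
      (cda hφ.smooth (rp_ne hA h t hw)).differentiableAt (by simp)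
    exact hd.hasFDerivAt.comp_hasDerivAt t (rp_deriv e v w t)
  have h2 : HasDerivAt (fun s => fderiv ℝ φ (rp e v s w) (Rv e v s w))
      (fderiv ℝ (fderiv ℝ φ) (rp e v 0 w) (Rv e v 0 w) (Rv e v 0 w) +
        fderiv ℝ φ (rp e v 0 w) (Ra e v 0 w)) 0 := by
    have hd : DifferentiableAt ℝ (fderiv ℝ φ) (rp e v 0 w) :=
      (cdaF hφ.smooth (rp_ne hA h 0 hw)).differentiableAt (by simp)
    have h3 : HasDerivAt (fun s => fderiv ℝ φ (rp e v s w))
        (fderiv ℝ (fderiv ℝ φ) (rp e v 0 w) (Rv e v 0 w)) 0 :=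
      hd.hasFDerivAt.comp_hasDerivAt (0 : ℝ) (rp_deriv e v w 0)
    exact h3.clm_apply (Rv_deriv e v w 0)
  have e1 : (deriv fun s => φ (rp e v s w)) = fun s => fderiv ℝ φ (rp e v s w) (Rv e v s w) := by
    funext t
    exact (h1 t).deriv
  have e0 : rp e v 0 w = w := (hA n e v h).2.2.1 w
  rw [Lop, e1, h2.deriv, e0, D2_eq_Bf hφ.smooth hw, Bf]

/-- the functions `⟨a,x⟩ Dφ(x) a` -/
private noncomputable def Fa {n : ℕ} (φ : E n → ℝ) (a x : E n) : ℝ :=
  (inner ℝ a x : ℝ) * fderiv ℝ φ x a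

private theorem Fa_cont {n : ℕ} {φ : E n → ℝ} (hφ : S1 φ) (hs : Sublinear φ) (a : E n) :
    Continuous (Fa φ a) := by
  have hd : ∀ x : E n, x ≠ 0 → DifferentiableAt ℝ φ x := fun x hx =>
    (cda hφ.smooth hx).differentiableAt (by simp)
  have hb : ∀ x : E n, |Fa φ a x| ≤ |(inner ℝ a x : ℝ)| * (|φ a| + |φ (-a)|) := by
    intro x
    by_cases hx : x = 0
    · simp [Fa, hx]
    · rw [Fa, abs_mul]
      refine mul_le_mul_of_nonneg_left ?_ (abs_nonneg _)
      have h1 := grad_le hs (hd x hx) a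
      have h2 := grad_le hs (hd x hx) (-a)
      rw [map_neg] at h2
      rw [abs_le]
      constructor
      · have h3 := le_abs_self (φ (-a))
        have h4 := abs_nonneg (φ a)
        linarith
      · have h3 := le_abs_self (φ a)
        have h4 := abs_nonneg (φ (-a))
        linarith
  rw [continuous_iff_continuousAt]
  intro x
  by_cases hx : x = 0
  · subst hx
    have h0 : Fa φ a 0 = 0 := by simp [Fa]
    rw [ContinuousAt, h0, tendsto_zero_iff_abs_tendsto_zero]
    have h1 : Tendsto (fun x : E n => |(inner ℝ a x : ℝ)| * (|φ a| + |φ (-a)|)) (𝓝 0) (𝓝 0) := by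
      have h2 : Continuous (fun x : E n => |(inner ℝ a x : ℝ)| * (|φ a| + |φ (-a)|)) := by
        fun_prop
      have h3 := h2.tendsto 0
      simpa using h3
    exact squeeze_zero (fun x => abs_nonneg _) hb h1
  · have h1 : ContinuousAt (fun y : E n => fderiv ℝ φ y a) x := (cda1 hφ.smooth a hx).continuousAt
    have h2 : ContinuousAt (fun y : E n => (inner ℝ a y : ℝ)) x := by fun_prop
    exact h2.mul h1

private theorem Fa_int {n : ℕ} {φ : E n → ℝ} (hφ : S1 φ) (hs : Sublinear φ) (a : E n)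
    (P : Measure (sphere (0 : E n) 1)) [IsFiniteMeasure P] :
    Integrable (fun w : sphere (0 : E n) 1 => Fa φ a (w : E n)) P := by
  have hc : Continuous (fun w : sphere (0 : E n) 1 => Fa φ a (w : E n)) :=
    (Fa_cont hφ hs a).comp continuous_subtype_val
  exact hc.integrable_of_hasCompactSupport (HasCompactSupport.of_compactSpace _)

/-- the gradient is monotone -/
private theorem Fa_mono {n : ℕ} {φ : E n → ℝ} (hφ : S1 φ) (hs : Sublinear φ) {a : E n}
    (ha : ‖a‖ = 1) {w : E n} (hw : w ≠ 0) :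
    0 ≤ Fa φ a w + Fa φ a (w - (2 * (inner ℝ a w : ℝ)) • a) := by
  have hd : ∀ x : E n, x ≠ 0 → DifferentiableAt ℝ φ x := fun x hx =>
    (cda hφ.smooth hx).differentiableAt (by simp)
  obtain ⟨c, hc⟩ : ∃ c : ℝ, c = inner ℝ a w := ⟨_, rfl⟩
  obtain ⟨z, hz⟩ : ∃ z : E n, z = w - (2 * c) • a := ⟨_, rfl⟩
  rw [← hc, ← hz]
  have haa : (inner ℝ a a : ℝ) = 1 := by
    rw [real_inner_self_eq_norm_sq, ha, one_pow]
  have h1 : (inner ℝ a z : ℝ) = -c := by
    rw [hz, inner_sub_right, inner_smul_right, haa, ← hc]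
    ring
  have hz0 : z ≠ 0 := by
    intro h0
    rw [h0, inner_zero_right] at h1
    have hc0 : c = 0 := by linarith
    rw [hc0] at hz
    apply hw
    rw [h0] at hz
    have h3 : w - (2 * (0 : ℝ)) • a = w := by simp
    rw [h3] at hz
    exact hz.symm
  have e1 := euler hs (hd w hw)
  have e2 := euler hs (hd z hz0)
  have g1 := grad_le hs (hd w hw) z
  have g2 := grad_le hs (hd z hz0) w
  have k1 : fderiv ℝ φ w z = fderiv ℝ φ w w - 2 * c * fderiv ℝ φ w a := by
    have h3 : fderiv ℝ φ w z = fderiv ℝ φ w (w - (2 * c) • a) := by rw [← hz]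
    rw [h3, map_sub, map_smul, smul_eq_mul]
  have k2 : fderiv ℝ φ z w = fderiv ℝ φ z z + 2 * c * fderiv ℝ φ z a := by
    have h3 : w = z + (2 * c) • a := by rw [hz]; abel
    have h4 : fderiv ℝ φ z w = fderiv ℝ φ z (z + (2 * c) • a) := by rw [← h3]
    rw [h4, map_add, map_smul, smul_eq_mul]
  unfold Fa
  rw [h1, ← hc]
  nlinarith

private theorem Fa_nonneg (hNE : StNE) {n : ℕ} (hn : 3 ≤ n) {e a : E n} (h : ON (e, a))
    (P : Measure (sphere (0 : E n) 1)) (hP : IsFiniteMeasure P) (hZ : Zon e P) {φ : E n → ℝ}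
    (hφ : S1 φ) (hs : Sublinear φ) : 0 ≤ ∫ w : sphere (0 : E n) 1, Fa φ a (w : E n) ∂P := by
  have h1 := hNE n e a P hn h hP hZ (Fa φ a) (Fa_cont hφ hs a)
  have i1 := Fa_int hφ hs a P
  have i2 : Integrable (fun w : sphere (0 : E n) 1 =>
      Fa φ a ((w : E n) - (2 * (inner ℝ a (w : E n) : ℝ)) • a)) P := by
    have hc : Continuous (fun w : sphere (0 : E n) 1 =>
        Fa φ a ((w : E n) - (2 * (inner ℝ a (w : E n) : ℝ)) • a)) := by
      refine (Fa_cont hφ hs a).comp ?_
      fun_prop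
    exact hc.integrable_of_hasCompactSupport (HasCompactSupport.of_compactSpace _)
  have h2 : 0 ≤ ∫ w : sphere (0 : E n) 1, (Fa φ a (w : E n) +
      Fa φ a ((w : E n) - (2 * (inner ℝ a (w : E n) : ℝ)) • a)) ∂P := by
    refine integral_nonneg fun w => ?_
    have hw : ‖(w : E n)‖ = 1 := by simp
    have hw0 : (w : E n) ≠ 0 := norm_ne_zero_iff.1 (by rw [hw]; exact one_ne_zero)
    exact Fa_mono hφ hs h.2.1 hw0
  rw [integral_add i1 i2, h1] at h2
  linarith

private theorem exists_basis {n : ℕ} (hn : 3 ≤ n) {e v : E n} (h : ON (e, v)) :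
    ∃ (b : OrthonormalBasis (Fin n) ℝ (E n)) (i j : Fin n), i ≠ j ∧ b i = e ∧ b j = v := by
  classical
  obtain ⟨i, hi⟩ : ∃ i : Fin n, i = ⟨0, by omega⟩ := ⟨_, rfl⟩
  obtain ⟨j, hj⟩ : ∃ j : Fin n, j = ⟨1, by omega⟩ := ⟨_, rfl⟩
  have hij : i ≠ j := by
    rw [hi, hj]
    intro h0
    simp at h0
  obtain ⟨h1, h2, h3⟩ := h
  simp only at h1 h2 h3
  have hv : Orthonormal ℝ (Set.domRestrict ({i, j} : Set (Fin n)) (fun k => if k = i then e else v)) := by
    constructor
    · rintro ⟨k, hk⟩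
      simp only [Set.domRestrict_apply]
      split_ifs
      · exact h1
      · exact h2
    · rintro ⟨k, hk⟩ ⟨l, hl⟩ hkl
      have hkl' : k ≠ l := fun h0 => hkl (Subtype.ext h0)
      simp only [Set.domRestrict_apply]
      rcases hk with hk | hk <;> rcases hl with hl | hl
      · exact absurd (hk.trans hl.symm) hkl'
      · rw [if_pos hk, if_neg (by rw [Set.mem_singleton_iff.1 hl]; exact hij.symm)]
        exact h3
      · rw [if_neg (by rw [Set.mem_singleton_iff.1 hk]; exact hij.symm), if_pos hl,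
          real_inner_comm]
        exact h3
      · exact absurd ((Set.mem_singleton_iff.1 hk).trans (Set.mem_singleton_iff.1 hl).symm) hkl'
  obtain ⟨b, hb⟩ := hv.exists_orthonormalBasis_extension_of_card_eq (by simp)
  refine ⟨b, i, j, hij, ?_, ?_⟩
  · rw [hb i (by simp)]
    simp
  · rw [hb j (by simp)]
    simp [hij.symm]

theorem hNF : StA → StNE → StNF := by
  classical
  intro hA hNE n e v P hn h hP hZ φ hφ hs
  obtain ⟨b, i, j, hij, hbi, hbj⟩ := exists_basis hn h
  by_cases hint : Integrable (fun w : sphere (0 : E n) 1 => Lop e v φ (w : E n)) P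
  swap
  · rw [integral_undef hint]
  have hON : ∀ k : Fin n, k ≠ i → ON (e, b k) := by
    intro k hk
    refine ⟨h.1, b.orthonormal.1 k, ?_⟩
    show (inner ℝ e (b k) : ℝ) = 0
    rw [← hbi]
    exact b.orthonormal.2 hk.symm
  have key : ∀ w : sphere (0 : E n) 1,
      ∑ k ∈ (Finset.univ.erase i).erase j, Fa φ (b k) (w : E n) ≤ Lop e v φ (w : E n) := by
    intro w
    have hw : ‖(w : E n)‖ = 1 := by simp
    have hw0 : (w : E n) ≠ 0 := norm_ne_zero_iff.1 (by rw [hw]; exact one_ne_zero)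
    have hd : DifferentiableAt ℝ φ (w : E n) := (cda hφ.smooth hw0).differentiableAt (by simp)
    have e1 : ∑ k, Fa φ (b k) (w : E n) = φ (w : E n) := by
      have e2 : ∑ k, (inner ℝ (b k) (w : E n) : ℝ) • b k = (w : E n) := b.sum_repr' (w : E n)
      have e3 : fderiv ℝ φ (w : E n) (∑ k, (inner ℝ (b k) (w : E n) : ℝ) • b k) = φ (w : E n) := by
        rw [e2]
        exact euler hs hd
      rw [← e3, map_sum]
      refine Finset.sum_congr rfl fun k _ => ?_
      rw [map_smul, smul_eq_mul, Fa]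
    have e4 := Finset.add_sum_erase Finset.univ (fun k => Fa φ (b k) (w : E n)) (Finset.mem_univ i)
    have e5 := Finset.add_sum_erase (Finset.univ.erase i) (fun k => Fa φ (b k) (w : E n))
      (Finset.mem_erase.2 ⟨hij.symm, Finset.mem_univ j⟩)
    rw [Lop_eq hA h hφ hw0]
    have e6 := D2_nonneg hs hφ.smooth (Rv e v 0 (w : E n)) hw0
    have e7 : fderiv ℝ φ (w : E n) (Ra e v 0 (w : E n)) =
        -(Fa φ e (w : E n)) - Fa φ v (w : E n) := by
      unfold Ra Fa
      rw [map_add, map_smul, map_smul]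
      simp only [Real.cos_zero, Real.sin_zero, smul_eq_mul]
      ring
    simp only [hbi, hbj] at e4 e5
    rw [e7]
    linarith
  have h1 : ∫ w : sphere (0 : E n) 1, ∑ k ∈ (Finset.univ.erase i).erase j,
      Fa φ (b k) (w : E n) ∂P ≤ ∫ w : sphere (0 : E n) 1, Lop e v φ (w : E n) ∂P :=
    integral_mono (integrable_finsetSum _ fun k _ => Fa_int hφ hs (b k) P) hint key
  refine le_trans ?_ h1
  rw [integral_finsetSum _ fun k _ => Fa_int hφ hs (b k) P]
  refine Finset.sum_nonneg fun k hk => ?_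
  exact Fa_nonneg hNE hn (hON k (Finset.ne_of_mem_erase (Finset.mem_of_mem_erase hk))) P hP hZ hφ hs

end Pool.Agent.Helper29.PM
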